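import Pool.Agent.L7h28.HF.Stm

set_option autoImplicit false

/-!
# Project HF: part DSC (the discriminant is a binary form of degree 8; periods)
-/

namespace Pool.Agent.L7h88.HF

open Pool.Agent.L7h28.HF

/-- The coefficients of the discriminant. -/
noncomputable def dd (a : ℝ) (b c : ℕ → ℝ) : ℕ → ℝ
  | 0 => b 0 * b 0 - 4 * a * c 0
  | 1 => 2 * b 0 * b 1 - 4 * a * c 1
  | 2 => 2 * b 0 * b 2 + b 1 * b 1 - 4 * a * c 2
  | 3 => 2 * b 0 * b 3 + 2 * b 1 * b 2 - 4 * a * c 3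
  | 4 => 2 * b 0 * b 4 + 2 * b 1 * b 3 + b 2 * b 2 - 4 * a * c 4
  | 5 => 2 * b 1 * b 4 + 2 * b 2 * b 3 - 4 * a * c 5
  | 6 => 2 * b 2 * b 4 + b 3 * b 3 - 4 * a * c 6
  | 7 => 2 * b 3 * b 4 - 4 * a * c 7
  | 8 => b 4 * b 4 - 4 * a * c 8
  | _ => 0

theorem s_DSC : S_DSC := by
  refine ⟨fun a b c => ⟨dd a b c, fun θ => ?_⟩, fun h θ => ?_, fun h θ => ?_⟩
  · unfold dsc frm
    simp only [Finset.sum_range_succ, Finset.sum_range_zero, dd]
    norm_num
    ring
  · unfold frm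
    rw [Real.cos_add_pi, Real.sin_add_pi]
    simp only [Finset.sum_range_succ, Finset.sum_range_zero]
    norm_num
    ring
  · unfold frm
    rw [Real.cos_add_pi, Real.sin_add_pi]
    simp only [Finset.sum_range_succ, Finset.sum_range_zero]
    norm_num
    ring

end Pool.Agent.L7h88.HF
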