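import Pool.Agent.L7h28.HF.Stm

set_option autoImplicit false

/-!
# Project HF: part OPN
-/

namespace Pool.Agent.L7h88.HF

open Pool.Agent.L7h28.HF

theorem cont_frm (n : ℕ) (h : ℕ → ℝ) : Continuous (frm n h) := by
  unfold frm
  fun_prop

theorem diff_frm (n : ℕ) (h : ℕ → ℝ) : Differentiable ℝ (frm n h) := by
  unfold frm
  fun_prop

theorem cont_G (a : ℝ) (b c : ℕ → ℝ) : Continuous (fun p : ℝ × ℝ => G a b c p.1 p.2) := by
  unfold G
  have h1 := cont_frm 4 b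
  have h2 := cont_frm 8 c
  fun_prop

/-- At a point of the curve with `τ > 0` and zero discriminant the discriminant has a nonzero
derivative, so it takes negative values. -/
theorem dsc_ne (a : ℝ) (b c : ℕ → ℝ) (ha : a ≠ 0) (hNS : NS a b c) (hd : ∀ θ, 0 ≤ dsc a b c θ)
    (θ0 τ0 : ℝ) (h0 : G a b c θ0 τ0 = 0) (hτ : 0 < τ0) : dsc a b c θ0 ≠ 0 := by
  intro hz
  -- derivative of the discriminant is zero at θ0 (a minimum)
  have hdd : DifferentiableAt ℝ (dsc a b c) θ0 := by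
    unfold dsc
    have h1 := diff_frm 4 b
    have h2 := diff_frm 8 c
    fun_prop
  have hmin : IsLocalMin (dsc a b c) θ0 := Filter.Eventually.of_forall fun θ => by
    rw [hz]; exact hd θ
  have hder0 : deriv (dsc a b c) θ0 = 0 := hmin.deriv_eq_zero
  have hB := (diff_frm 4 b θ0).hasDerivAt
  have hCc := (diff_frm 8 c θ0).hasDerivAt
  obtain ⟨B', hB'⟩ : ∃ B', B' = deriv (frm 4 b) θ0 := ⟨_, rfl⟩
  obtain ⟨C', hC'⟩ : ∃ C', C' = deriv (frm 8 c) θ0 := ⟨_, rfl⟩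
  rw [← hB'] at hB
  rw [← hC'] at hCc
  have hdsc : HasDerivAt (dsc a b c) (2 * frm 4 b θ0 * B' - 4 * a * C') θ0 := by
    have h1 := (hB.pow 2).sub (hCc.const_mul (4 * a))
    unfold dsc
    refine h1.congr_deriv ?_
    norm_num
  have e1 : 2 * frm 4 b θ0 * B' - 4 * a * C' = 0 := by
    rw [← hdsc.deriv]; exact hder0
  -- the double root
  have e2 : frm 4 b θ0 ^ 2 - 4 * a * frm 8 c θ0 = 0 := hz
  have e3 : a * τ0 ^ 8 + frm 4 b θ0 * τ0 ^ 4 + frm 8 c θ0 = 0 := h0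
  have e4 : (2 * a * τ0 ^ 4 + frm 4 b θ0) ^ 2 = 0 := by
    have : (2 * a * τ0 ^ 4 + frm 4 b θ0) ^ 2 = 4 * a * (a * τ0 ^ 8 + frm 4 b θ0 * τ0 ^ 4 + frm 8 c θ0)
        + (frm 4 b θ0 ^ 2 - 4 * a * frm 8 c θ0) := by ring
    rw [this, e3, e2]; ring
  have e5 : 2 * a * τ0 ^ 4 + frm 4 b θ0 = 0 := by
    exact pow_eq_zero_iff (two_ne_zero) |>.1 e4
  -- derivatives of G
  refine hNS θ0 τ0 h0 ?_ ?_
  · have h1 : HasDerivAt (fun x : ℝ => G a b c x τ0) (B' * τ0 ^ 4 + C') θ0 := by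
      have h2 := ((hB.mul_const (τ0 ^ 4)).const_add (a * τ0 ^ 8)).add hCc
      unfold G
      exact h2
    have h3 : B' * τ0 ^ 4 + C' = 0 := by
      have h4 : 4 * a * (B' * τ0 ^ 4 + C') = 0 := by
        have h5 : frm 4 b θ0 = - (2 * a * τ0 ^ 4) := by linarith
        rw [h5] at e1
        linear_combination (-1 : ℝ) * e1
      rcases mul_eq_zero.1 h4 with h | h
      · exact absurd (by linarith) ha
      · exact h
    rw [h3] at h1
    exact h1
  · have h1 : HasDerivAt (fun x : ℝ => G a b c θ0 x)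
        (a * (8 * τ0 ^ 7) + frm 4 b θ0 * (4 * τ0 ^ 3)) τ0 := by
      have h2 := (((hasDerivAt_pow 8 τ0).const_mul a).add
        ((hasDerivAt_pow 4 τ0).const_mul (frm 4 b θ0))).add_const (frm 8 c θ0)
      unfold G
      refine h2.congr_deriv ?_
      norm_num
    have h3 : a * (8 * τ0 ^ 7) + frm 4 b θ0 * (4 * τ0 ^ 3) = 0 := by
      linear_combination 4 * τ0 ^ 3 * e5
    rw [h3] at h1
    exact h1

theorem s_OPN (h1 : S_LA) : S_OPN := by
  intro a b c K ha hNS hK hd h0 hne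
  set T : Set ℝ := {θ | ∃ τ : ℝ, 0 < τ ∧ (θ, τ) ∈ K} with hT
  have hopen : IsOpen T := by
    rw [Metric.isOpen_iff]
    rintro θ0 ⟨τ0, hτ0, hmem⟩
    have hG0 : G a b c θ0 τ0 = 0 := hK.sub (θ0, τ0) hmem
    have hd0 : dsc a b c θ0 ≠ 0 := dsc_ne a b c ha hNS hd θ0 τ0 hG0 hτ0
    have hhalf : 0 < τ0 / 2 := half_pos hτ0
    obtain ⟨δ, hδ, hδ'⟩ := h1 a b c K ha hK θ0 τ0 hmem hτ0 hd0 (τ0 / 2) hhalf
    refine ⟨δ, hδ, fun θ hθ => ?_⟩
    rw [Metric.mem_ball, Real.dist_eq] at hθ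
    obtain ⟨τ, hτ, hm⟩ := hδ' θ hθ
    refine ⟨τ, ?_, hm⟩
    have := (abs_lt.1 hτ).1
    linarith
  have hclosed : IsClosed T := by
    rw [← isSeqClosed_iff_isClosed]
    intro u θ0 hu hlim
    choose v hv hvK using hu
    -- bound of the `v n`
    obtain ⟨R, hR, hRB⟩ : ∃ R : ℝ, 0 < R ∧ ∀ n, v n ≤ R := by
      have hc : IsCompact (Set.range u ∪ {θ0}) := by
        have := hlim.isCompact_insert_range
        rwa [Set.union_comm, Set.singleton_union]
      obtain ⟨B0, hB0⟩ := hc.exists_bound_of_continuousOn (cont_frm 4 b).continuousOn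
      obtain ⟨C0, hC0⟩ := hc.exists_bound_of_continuousOn (cont_frm 8 c).continuousOn
      refine ⟨1 + (|B0| + |C0|) / |a|, by positivity, fun n => ?_⟩
      by_contra hn
      push Not at hn
      have hG : a * v n ^ 8 + frm 4 b (u n) * v n ^ 4 + frm 8 c (u n) = 0 := hK.sub (u n, v n) (hvK n)
      have b1 : |frm 4 b (u n)| ≤ |B0| := (hB0 (u n) (Or.inl ⟨n, rfl⟩)).trans (le_abs_self _)
      have b2 : |frm 8 c (u n)| ≤ |C0| := (hC0 (u n) (Or.inl ⟨n, rfl⟩)).trans (le_abs_self _)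
      have hapos : 0 < |a| := abs_pos.2 ha
      have hv1 : 1 < v n := by
        have : 0 ≤ (|B0| + |C0|) / |a| := by positivity
        linarith
      have hv4 : v n ≤ v n ^ 4 := le_self_pow₀ hv1.le (by norm_num)
      have hv4' : 1 ≤ v n ^ 4 := hv1.le.trans hv4
      have k1 : |a| * (v n ^ 4 * v n ^ 4) ≤ (|B0| + |C0|) * v n ^ 4 := by
        have e : |a| * (v n ^ 4 * v n ^ 4) = |a * v n ^ 8| := by
          rw [abs_mul, abs_of_nonneg (by positivity : 0 ≤ v n ^ 8)]; ring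
        have e' : a * v n ^ 8 = -(frm 4 b (u n) * v n ^ 4 + frm 8 c (u n)) := by linarith
        rw [e, e', abs_neg]
        refine (abs_add_le _ _).trans ?_
        rw [abs_mul, abs_of_nonneg (by positivity : 0 ≤ v n ^ 4), add_mul]
        refine add_le_add (mul_le_mul_of_nonneg_right b1 (by positivity)) ?_
        calc |frm 8 c (u n)| ≤ |C0| * 1 := by linarith
          _ ≤ |C0| * v n ^ 4 := mul_le_mul_of_nonneg_left hv4' (abs_nonneg _)
      have k2 : |a| * v n ^ 4 ≤ |B0| + |C0| := by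
        have h5 : (|a| * v n ^ 4) * v n ^ 4 ≤ (|B0| + |C0|) * v n ^ 4 := by
          calc (|a| * v n ^ 4) * v n ^ 4 = |a| * (v n ^ 4 * v n ^ 4) := by ring
            _ ≤ _ := k1
        exact le_of_mul_le_mul_right h5 (by linarith)
      have k3 : |a| * v n ≤ |B0| + |C0| := (mul_le_mul_of_nonneg_left hv4 hapos.le).trans k2
      have k4 : v n ≤ (|B0| + |C0|) / |a| := by
        rw [le_div_iff₀ hapos]; linarith
      linarith
    obtain ⟨τ0, -, φ, hφ, hτ0⟩ := (isCompact_Icc (a := (0 : ℝ)) (b := R)).tendsto_subseq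
      (fun n => (⟨(hv n).le, hRB n⟩ : v n ∈ Set.Icc 0 R))
    have hτnn : 0 ≤ τ0 := ge_of_tendsto' hτ0 fun n => (hv (φ n)).le
    have hmem : (θ0, τ0) ∈ K := by
      refine hK.closed.mem_of_tendsto ((hlim.comp hφ.tendsto_atTop).prodMk_nhds hτ0)
        (Filter.Eventually.of_forall fun n => hvK (φ n))
    rcases hτnn.lt_or_eq with h | h
    · exact ⟨τ0, h, hmem⟩
    · rw [← h] at hmem
      exact absurd hmem (h0 θ0)
  have huniv : T = Set.univ := by
    refine IsClopen.eq_univ ⟨hclosed, hopen⟩ ?_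
    obtain ⟨p, hp, hp2⟩ := hne
    exact ⟨p.1, p.2, hp2, hp⟩
  intro θ
  have : θ ∈ T := by rw [huniv]; exact Set.mem_univ θ
  exact this

end Pool.Agent.L7h88.HF
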